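import Pool.Agent.MP_c1eef4_lc.H62.Main

namespace Pool.Agent.Results.MP_c1eef4_lc.Counter

open FirstOrder Pool.Agent.MP_c1eef4_lc.H62

/-- A counterexample with `n = 1`: a complete countably categorical theory `T` with a computable
model `A`, `T` computable in the halting set, the graph of its type function not computable in the
halting set, and `A` autostable. -/
theorem result : ∃ (T : L.Theory) (A : Set ℕ) (_ : L.Structure A),
    T.IsMaximal ∧ Cardinal.Categorical.{0, 0, 0} Cardinal.aleph0 T ∧
    (∀ n, Finite (T.CompleteType (Fin n))) ∧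
    A.Infinite ∧ IsComputableStr A ∧ A ⊨ T ∧
    TuringReducible (chi (code (n := 0) '' T)) (chi K) ∧
    ¬ TuringReducible
      (chi {m | ∃ n, 1 ≤ n ∧ m = Nat.pair n (Nat.card (T.CompleteType (Fin n)))}) (chi K) ∧
    ∀ (B C : Set ℕ) [L.Structure B] [L.Structure C], IsComputableStr B → IsComputableStr C →
      Nonempty (B ≃[L] A) → Nonempty (C ≃[L] A) →
      ∃ (e : B ≃[L] C) (f : ℕ → ℕ), Computable f ∧ ∀ x : B, f x = e x :=
  main

end Pool.Agent.Results.MP_c1eef4_lc.Counter
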